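import Pool.Agent.Helper60.PW.Defs2

/-!
Module E6 for MP_124889_co: an even bridge.
-/

open MvPolynomial

namespace PoolPW

/-- the edges inside a finite set of vertices -/
def e6Res {V : Type*} (M : SimpleGraph V) (A : Finset V) : SimpleGraph V where
  Adj u v := M.Adj u v ∧ u ∈ A ∧ v ∈ A
  symm := ⟨fun _ _ h => ⟨h.1.symm, h.2.2, h.2.1⟩⟩
  loopless := ⟨fun _ h => M.loopless.irrefl _ h.1⟩

theorem e6_exists_maxcut {V : Type*} [Fintype V] (M : SimpleGraph V) : ∃ T, IsMaxCut M T :=
  Finite.exists_max (cutCount M)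

/-- connectedness of a side of a bridge, in the ambient graph -/
theorem e6_reach {V : Type*} (M : SimpleGraph V) (hM : M.Connected) (A : Finset V) (x y : V)
    (hA : ∀ u ∈ A, ∀ v, v ∉ A → M.Adj u v → u = x ∧ v = y)
    (u v : V) (hu : u ∈ A) (hv : v ∈ A) : (e6Res M A).Reachable u v := by
  have key : ∀ w, M.Reachable u w → (w ∈ A → (e6Res M A).Reachable u w) ∧
      (w ∉ A → (e6Res M A).Reachable u x) := by
    intro w hw
    rw [SimpleGraph.reachable_iff_reflTransGen] at hw
    induction hw with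
    | refl => exact ⟨fun _ => SimpleGraph.Reachable.refl _, fun h => absurd hu h⟩
    | @tail w w' _ hadj ih =>
      by_cases h1 : w ∈ A
      · by_cases h2 : w' ∈ A
        · refine ⟨fun _ => (ih.1 h1).trans ?_, fun h => absurd h2 h⟩
          exact SimpleGraph.Adj.reachable (G := e6Res M A) ⟨hadj, h1, h2⟩
        · obtain ⟨e1, e2⟩ := hA w h1 w' h2 hadj
          exact ⟨fun h => absurd h h2, fun _ => e1 ▸ ih.1 h1⟩
      · by_cases h2 : w' ∈ A
        · obtain ⟨e1, e2⟩ := hA w' h2 w h1 hadj.symm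
          exact ⟨fun _ => by rw [e1]; exact ih.2 h1, fun h => absurd h2 h⟩
        · exact ⟨fun h => absurd h h2, fun _ => ih.2 h1⟩
  exact (key v (hM.preconnected u v)).1 hv

/-- connectedness of the induced subgraph -/
theorem e6_conn {V : Type*} (M : SimpleGraph V) (hM : M.Connected) (A : Finset V) (x y : V)
    (hx : x ∈ A) (hA : ∀ u ∈ A, ∀ v, v ∉ A → M.Adj u v → u = x ∧ v = y) :
    (M.comap (fun v : {v // v ∈ A} => v.1)).Connected := by
  have : Nonempty {v // v ∈ A} := ⟨⟨x, hx⟩⟩
  refine SimpleGraph.Connected.mk ?_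
  intro u v
  have h := e6_reach M hM A x y hA u.1 v.1 u.2 v.2
  rw [SimpleGraph.reachable_iff_reflTransGen] at h
  have key : ∀ w, Relation.ReflTransGen (e6Res M A).Adj u.1 w → ∀ hw : w ∈ A,
      (M.comap (fun v : {v // v ∈ A} => v.1)).Reachable u ⟨w, hw⟩ := by
    intro w hw
    induction hw with
    | refl => exact fun _ => SimpleGraph.Reachable.refl _
    | @tail w w' _ hadj ih =>
      intro hw'
      refine (ih hadj.2.1).trans ?_
      apply SimpleGraph.Adj.reachable
      exact hadj.1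
  exact key v.1 h v.2

open Classical in
/-- splitting the degree sum at a side of a bridge -/
theorem e6_sum {V : Type*} [Fintype V] (M : SimpleGraph V) (A : Finset V) (x y : V)
    (hy : y ∉ A) (hxy : M.Adj x y)
    (hA : ∀ u ∈ A, ∀ v, v ∉ A → M.Adj u v → u = x ∧ v = y) (f : V → ℝ) (u : V) (hu : u ∈ A) :
    ∑ v ∈ Finset.univ.filter (fun v => M.Adj u v), f v =
      ∑ v ∈ A, (if M.Adj u v then f v else 0) + (if u = x then f y else 0) := by
  rw [Finset.sum_filter, ← Finset.sum_add_sum_compl A]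
  congr 1
  by_cases h : u = x
  · rw [if_pos h, Finset.sum_eq_single y]
    · rw [if_pos (h ▸ hxy)]
    · intro v hv hvy
      rw [if_neg]
      intro hadj
      exact hvy (hA u hu v (Finset.mem_compl.mp hv) hadj).2
    · intro h'
      exact absurd (Finset.mem_compl.mpr hy) h'
  · rw [if_neg h]
    apply Finset.sum_eq_zero
    intro v hv
    rw [if_neg]
    intro hadj
    exact h (hA u hu v (Finset.mem_compl.mp hv) hadj).1

open Classical in
theorem e6_dg {V : Type*} [Fintype V] (M : SimpleGraph V) (A : Finset V) (x y : V)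
    (hy : y ∉ A) (hxy : M.Adj x y)
    (hA : ∀ u ∈ A, ∀ v, v ∉ A → M.Adj u v → u = x ∧ v = y) (u : V) (hu : u ∈ A) :
    dg M u = dg (e6Res M A) u + (if u = x then 1 else 0) := by
  have h := e6_sum M A x y hy hxy hA (fun _ => 1) u hu
  have h2 : ((dg M u : ℕ) : ℝ) = dg (e6Res M A) u + (if u = x then 1 else 0) := by
    unfold dg
    rw [Finset.card_eq_sum_ones, Nat.cast_sum]
    simp only [Nat.cast_one]
    rw [h]
    congr 1
    rw [Finset.card_eq_sum_ones, Nat.cast_sum]
    simp only [Nat.cast_one]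
    rw [Finset.sum_filter, ← Finset.sum_add_sum_compl A]
    have hz : ∑ i ∈ Aᶜ, (if (e6Res M A).Adj u i then (1 : ℝ) else 0) = 0 := by
      apply Finset.sum_eq_zero
      intro v hv
      rw [if_neg]
      intro hadj
      exact (Finset.mem_compl.mp hv) hadj.2.2
    rw [hz, add_zero]
    apply Finset.sum_congr rfl
    intro v hv
    by_cases h3 : M.Adj u v
    · rw [if_pos h3, if_pos ⟨h3, hu, hv⟩]
    · rw [if_neg h3, if_neg (fun h4 => h3 h4.1)]
  exact_mod_cast h2

theorem e6_phi {a c : ℝ} {Φ : ℝ → ZMod 2} (h1 : ∀ t, Φ (t + (c - a)) = Φ t) (n : ℕ) (t : ℝ) :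
    Φ (t + (c - a) * n) = Φ t := by
  induction n with
  | zero => simp
  | succ n ih =>
    have e : t + (c - a) * ((n + 1 : ℕ) : ℝ) = (t + (c - a) * n) + (c - a) := by push_cast; ring
    rw [e, h1, ih]

open Classical in
/-- one side is solved by the induction hypothesis, the other one by `feasible` -/
theorem e6_side.{u} {V : Type u} [Fintype V] (M : SimpleGraph V) (hM : M.Connected)
    (β : V → ℕ) (a z c : ℝ) (hac : a ≠ c) (Φ : ℝ → ZMod 2)
    (h1 : ∀ t, Φ (t + (c - a)) = Φ t) (h2 : ∀ t, Φ (t + (z - a)) = Φ t + 1)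
    (IH : ∀ (W : Type u) [Fintype W] (N : SimpleGraph W) (β' : W → ℕ),
      Fintype.card W < Fintype.card V → N.Connected → Even (Fintype.card W) →
      (2 < Fintype.card W ∨ ∃ v, 0 < β' v) → Good N β' a z c)
    (A : Finset V) (x y : V) (hx : x ∈ A) (hy : y ∉ A) (hxy : M.Adj x y)
    (hA : ∀ u ∈ A, ∀ v, v ∉ A → M.Adj u v → u = x ∧ v = y)
    (hAe : Even A.card) (hVe : Even (Fintype.card V))
    (T : V → ZMod 2) (hT : IsMaxCut (e6Res M Aᶜ) T)
    (hs : ∑ v ∈ Aᶜ, (Φ (a * (dg M v + β v)) + T v) = 0) :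
    Good M β a z c := by
  have hB : ∀ u ∈ Aᶜ, ∀ v, v ∉ Aᶜ → M.Adj u v → u = y ∧ v = x := by
    intro u hu v hv huv
    have hv' : v ∈ A := by
      by_contra h
      exact hv (Finset.mem_compl.mpr h)
    exact (hA v hv' u (Finset.mem_compl.mp hu) huv.symm).symm
  have hyc : y ∈ Aᶜ := Finset.mem_compl.mpr hy
  have hxc : x ∉ Aᶜ := fun h => (Finset.mem_compl.mp h) hx
  -- the induction hypothesis on the side of x
  have hcardA : Fintype.card {v // v ∈ A} = A.card := Fintype.card_coe A
  have hlt : A.card < Fintype.card V := by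
    rw [← Finset.card_univ]
    exact Finset.card_lt_card ⟨Finset.subset_univ _, fun h => hy (h (Finset.mem_univ y))⟩
  obtain ⟨w1, i1, hw1s, hw1l, hi1, hp1⟩ := IH {v // v ∈ A}
    (M.comap (fun v : {v // v ∈ A} => v.1)) (fun v => β v.1 + if v.1 = x then 1 else 0)
    (by rw [hcardA]; exact hlt) (e6_conn M hM A x y hx hA) (by rw [hcardA]; exact hAe)
    (Or.inr ⟨⟨x, hx⟩, by simp⟩)
  set N := M.comap (fun v : {v // v ∈ A} => v.1) with hN
  set r1 : {v // v ∈ A} → ℝ := fun v => a * ((β v.1 + if v.1 = x then 1 else 0 : ℕ) : ℝ) +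
    (c - a) * i1 v with hr1
  -- the label of the bridge
  have hix : i1 ⟨x, hx⟩ ≤ β x + 1 := by
    have := hi1 ⟨x, hx⟩
    simpa using this
  obtain ⟨ℓ, ix, hℓ, hixle, hℓeq⟩ : ∃ (ℓ : ℝ) (ix : ℕ), (ℓ = a ∨ ℓ = c) ∧ ix ≤ β x ∧
      a * β x + (c - a) * ix + ℓ = a * ((β x + 1 : ℕ) : ℝ) + (c - a) * i1 ⟨x, hx⟩ := by
    by_cases h : i1 ⟨x, hx⟩ = β x + 1
    · refine ⟨c, β x, Or.inr rfl, le_rfl, ?_⟩
      rw [h]; push_cast; ring
    · refine ⟨a, i1 ⟨x, hx⟩, Or.inl rfl, by omega, ?_⟩
      push_cast; ring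
  have hΦℓ : ∀ t, Φ (t + ℓ) = Φ (t + a) := by
    intro t
    rcases hℓ with h | h
    · rw [h]
    · rw [h]
      have e : t + c = (t + a) + (c - a) := by ring
      rw [e, h1]
  -- the value at x
  set vx : ℝ := val N r1 w1 ⟨x, hx⟩ with hvx
  obtain ⟨ε, hε⟩ : ∃ ε : ZMod 2, T y + ε ≠ Φ vx := by
    refine ⟨Φ vx + 1 + T y, ?_⟩
    have : ∀ s t : ZMod 2, s + (t + 1 + s) ≠ t := by decide
    exact this _ _
  set r2 : V → ℝ := fun v => a * β v + if v = y then ℓ else 0 with hr2
  set T2 : V → ZMod 2 := fun v => if v ∈ Aᶜ then T v + ε else Φ (r2 v) with hT2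
  have hT2max : IsMaxCut (e6Res M Aᶜ) T2 := by
    intro T'
    refine (hT T').trans (le_of_eq ?_)
    unfold cutCount
    congr 1
    apply Finset.filter_congr
    intro e _
    constructor
    · rintro ⟨he, hne⟩
      refine ⟨he, ?_⟩
      rw [hT2]
      simp only [if_pos he.2.1, if_pos he.2.2]
      exact fun h => hne (add_right_cancel h)
    · rintro ⟨he, hne⟩
      refine ⟨he, ?_⟩
      rw [hT2] at hne
      simp only [if_pos he.2.1, if_pos he.2.2] at hne
      exact fun h => hne (by rw [h])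
  have hcardc : ((Aᶜ.card : ℕ) : ZMod 2) = 0 := by
    have : Even Aᶜ.card := by
      rw [Finset.card_compl]
      exact (Nat.even_sub (Finset.card_le_univ A)).mpr (iff_of_true hVe hAe)
    exact (ZMod.natCast_eq_zero_iff_even).mpr this
  have hterm : ∀ v ∈ Aᶜ, Φ (r2 v + a * (dg (e6Res M Aᶜ) v)) = Φ (a * (dg M v + β v)) := by
    intro v hv
    have hd := e6_dg M Aᶜ y x hxc hxy.symm hB v hv
    rw [hr2, hd]
    by_cases h : v = y
    · simp only [if_pos h]
      have e1 : a * (β v : ℝ) + ℓ + a * (dg (e6Res M Aᶜ) v) =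
        (a * (β v : ℝ) + a * (dg (e6Res M Aᶜ) v)) + ℓ := by ring
      rw [e1, hΦℓ]
      congr 1
      push_cast
      ring
    · simp only [if_neg h]
      congr 1
      push_cast
      ring
  have hpar : ∀ u, ∑ v ∈ Finset.univ.filter (fun v => (e6Res M Aᶜ).Reachable u v),
      (Φ (r2 v + a * (Finset.univ.filter (fun x => (e6Res M Aᶜ).Adj v x)).card) + T2 v) = 0 := by
    intro u
    by_cases hu : u ∈ Aᶜ
    · have hfil : Finset.univ.filter (fun v => (e6Res M Aᶜ).Reachable u v) = Aᶜ := by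
        ext v
        simp only [Finset.mem_filter, Finset.mem_univ, true_and]
        constructor
        · intro h
          rw [SimpleGraph.reachable_iff_reflTransGen] at h
          induction h with
          | refl => exact hu
          | tail _ hadj _ => exact hadj.2.2
        · intro hv
          exact e6_reach M hM Aᶜ y x hB u v hu hv
      rw [hfil]
      have e1 : ∑ v ∈ Aᶜ, (Φ (r2 v + a * (Finset.univ.filter
          (fun x => (e6Res M Aᶜ).Adj v x)).card) + T2 v) =
          ∑ v ∈ Aᶜ, ((Φ (a * (dg M v + β v)) + T v) + ε) := by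
        apply Finset.sum_congr rfl
        intro v hv
        have h3 := hterm v hv
        unfold dg at h3 ⊢
        rw [h3, hT2]
        simp only [if_pos hv]
        ring
      rw [e1, Finset.sum_add_distrib, hs, Finset.sum_const, nsmul_eq_mul, hcardc]
      ring
    · have hfil : Finset.univ.filter (fun v => (e6Res M Aᶜ).Reachable u v) = {u} := by
        ext v
        simp only [Finset.mem_filter, Finset.mem_univ, true_and, Finset.mem_singleton]
        constructor
        · intro h
          rw [SimpleGraph.reachable_iff_reflTransGen] at h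
          rcases Relation.ReflTransGen.cases_head h with h | ⟨w, hw, _⟩
          · exact h.symm
          · exact absurd hw.2.1 hu
        · rintro rfl
          exact SimpleGraph.Reachable.refl _
      rw [hfil, Finset.sum_singleton]
      have hz : (Finset.univ.filter (fun x => (e6Res M Aᶜ).Adj u x)) = ∅ := by
        apply Finset.filter_eq_empty_iff.mpr
        intro v _ hadj
        exact hu hadj.2.1
      rw [hz, hT2]
      simp only [if_neg hu, Finset.card_empty, Nat.cast_zero, mul_zero, add_zero]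
      have : ∀ s : ZMod 2, s + s = 0 := by decide
      exact this _
  obtain ⟨w2, hw2s, hw2l, _, hw2Φ, hp2⟩ := feasible (e6Res M Aᶜ) T2 hT2max a z c hac Φ h1 h2 r2 hpar
  -- the final labelling
  set W : V → V → ℝ := fun u v => if hu : u ∈ A then
    (if hv : v ∈ A then w1 ⟨u, hu⟩ ⟨v, hv⟩ else ℓ) else (if v ∈ A then ℓ else w2 u v) with hW
  set I : V → ℕ := fun v => if hv : v ∈ A then
      (if v = x then ix else i1 ⟨v, hv⟩) else 0 with hI
  have hWAA : ∀ u v (hu : u ∈ A) (hv : v ∈ A), W u v = w1 ⟨u, hu⟩ ⟨v, hv⟩ := by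
    intro u v hu hv
    rw [hW]; simp only [hu, hv, dif_pos]
  have hWAB : ∀ u v, u ∈ A → v ∉ A → W u v = ℓ := by
    intro u v hu hv
    rw [hW]; simp only [hu, hv, dif_pos, dif_neg, not_false_iff]
  have hWBA : ∀ u v, u ∉ A → v ∈ A → W u v = ℓ := by
    intro u v hu hv
    rw [hW]; simp only [hu, hv, dif_neg, if_true, not_false_iff]
  have hWBB : ∀ u v, u ∉ A → v ∉ A → W u v = w2 u v := by
    intro u v hu hv
    rw [hW]; simp only [hu, hv, dif_neg, if_false, not_false_iff]
  have hVA : ∀ u (hu : u ∈ A), val M (fun v => a * β v + (c - a) * I v) W u =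
      val N r1 w1 ⟨u, hu⟩ := by
    intro u hu
    have e1 : ∑ v ∈ A, (if M.Adj u v then W u v else 0) =
        val N r1 w1 ⟨u, hu⟩ - r1 ⟨u, hu⟩ := by
      rw [val, add_sub_cancel_left, Finset.sum_filter, ← Finset.sum_coe_sort A]
      apply Finset.sum_congr rfl
      intro v _
      have e2 : N.Adj ⟨u, hu⟩ v ↔ M.Adj u v.1 := Iff.rfl
      by_cases h : M.Adj u v.1
      · rw [if_pos h, if_pos (e2.mpr h), hWAA u v.1 hu v.2]
      · rw [if_neg h, if_neg (fun h' => h (e2.mp h'))]
    rw [val, e6_sum M A x y hy hxy hA (W u) u hu, e1]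
    by_cases h : u = x
    · subst h
      rw [if_pos rfl, hWAB u y hu hy]
      have hIx : I u = ix := by rw [hI]; simp [hu]
      have hr : r1 ⟨u, hu⟩ = a * ((β u + 1 : ℕ) : ℝ) + (c - a) * i1 ⟨u, hu⟩ := by
        rw [hr1]; simp only [if_true]
      rw [hIx, hr]
      linarith
    · rw [if_neg h]
      have hIx : I u = i1 ⟨u, hu⟩ := by rw [hI]; simp [hu, h]
      have hr : r1 ⟨u, hu⟩ = a * (β u : ℝ) + (c - a) * i1 ⟨u, hu⟩ := by
        rw [hr1]; simp only [h, if_false, add_zero]
      rw [hIx, hr]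
      ring
  have hVB : ∀ u, u ∉ A → val M (fun v => a * β v + (c - a) * I v) W u =
      val (e6Res M Aᶜ) r2 w2 u := by
    intro u hu
    have hu' : u ∈ Aᶜ := Finset.mem_compl.mpr hu
    unfold val
    rw [e6_sum M Aᶜ y x hxc hxy.symm hB (W u) u hu']
    have e1 : ∑ v ∈ Aᶜ, (if M.Adj u v then W u v else 0) =
        ∑ v ∈ Finset.univ.filter (fun v => (e6Res M Aᶜ).Adj u v), w2 u v := by
      rw [Finset.sum_filter, ← Finset.sum_add_sum_compl Aᶜ
        (fun v => if (e6Res M Aᶜ).Adj u v then w2 u v else 0)]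
      have hz : ∑ v ∈ Aᶜᶜ, (if (e6Res M Aᶜ).Adj u v then w2 u v else 0) = 0 := by
        apply Finset.sum_eq_zero
        intro v hv
        rw [if_neg]
        intro hadj
        exact (Finset.mem_compl.mp hv) hadj.2.2
      rw [hz, add_zero]
      apply Finset.sum_congr rfl
      intro v hv
      by_cases h : M.Adj u v
      · rw [if_pos h, if_pos ⟨h, hu', hv⟩, hWBB u v hu (Finset.mem_compl.mp hv)]
      · rw [if_neg h, if_neg (fun h4 => h h4.1)]
    rw [e1]
    have hIu : I u = 0 := by rw [hI]; simp [hu]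
    beta_reduce
    rw [hIu, hr2]
    by_cases h : u = y
    · subst h
      simp only [if_true, hWBA u x hu hx]
      push_cast
      ring
    · simp only [h, if_false]
      push_cast
      ring
  refine ⟨W, I, ?_, ?_, ?_, ?_⟩
  · intro u v
    by_cases hu : u ∈ A <;> by_cases hv : v ∈ A
    · rw [hWAA u v hu hv, hWAA v u hv hu]; exact hw1s _ _
    · rw [hWAB u v hu hv, hWBA v u hv hu]
    · rw [hWBA u v hu hv, hWAB v u hv hu]
    · rw [hWBB u v hu hv, hWBB v u hv hu]; exact hw2s _ _
  · intro u v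
    have hℓ' : ℓ = a ∨ ℓ = z ∨ ℓ = c := by tauto
    by_cases hu : u ∈ A <;> by_cases hv : v ∈ A
    · rw [hWAA u v hu hv]; exact hw1l _ _
    · rw [hWAB u v hu hv]; exact hℓ'
    · rw [hWBA u v hu hv]; exact hℓ'
    · rw [hWBB u v hu hv]; exact hw2l _ _
  · intro v
    rw [hI]
    by_cases hv : v ∈ A
    · simp only [hv, dif_pos]
      by_cases hvx' : v = x
      · rw [if_pos hvx', hvx']; exact hixle
      · rw [if_neg hvx']
        have := hi1 ⟨v, hv⟩
        simpa [hvx'] using this
    · simp [hv]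
  · have hcross : ∀ u v, u ∈ A → v ∉ A → M.Adj u v →
        val M (fun v => a * β v + (c - a) * I v) W u ≠
        val M (fun v => a * β v + (c - a) * I v) W v := by
      intro u v hu hv huv
      obtain ⟨e1, e2⟩ := hA u hu v hv huv
      subst e1
      subst e2
      rw [hVA u hu, hVB v hv]
      intro h
      apply hε
      have h3 := hw2Φ v
      rw [← h, hT2] at h3
      simp only [if_pos hyc] at h3
      rw [hvx]
      exact h3.symm
    intro u v huv
    by_cases hu : u ∈ A <;> by_cases hv : v ∈ A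
    · rw [hVA u hu, hVA v hv]
      exact hp1 ⟨u, hu⟩ ⟨v, hv⟩ huv
    · exact hcross u v hu hv huv
    · exact (hcross v u hv hu huv.symm).symm
    · rw [hVB u hu, hVB v hv]
      exact hp2 u v ⟨huv, Finset.mem_compl.mpr hu, Finset.mem_compl.mpr hv⟩

open Classical in
theorem e6_count {V : Type*} [Fintype V] (M : SimpleGraph V) (A : Finset V) (x y : V)
    (hx : x ∈ A) (hy : y ∉ A) (hxy : M.Adj x y)
    (hA : ∀ u ∈ A, ∀ v, v ∉ A → M.Adj u v → u = x ∧ v = y)
    (hB : ∀ u ∈ Aᶜ, ∀ v, v ∉ Aᶜ → M.Adj u v → u = y ∧ v = x) (T' : V → ZMod 2) :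
    cutCount M T' = cutCount (e6Res M A) T' +
      cutCount (e6Res M Aᶜ) T' + (if T' x ≠ T' y then 2 else 0) := by
  unfold cutCount
  have h : Finset.univ.filter (fun e : V × V => M.Adj e.1 e.2 ∧ T' e.1 ≠ T' e.2) =
      (Finset.univ.filter (fun e : V × V => (e6Res M A).Adj e.1 e.2 ∧ T' e.1 ≠ T' e.2) ∪
      Finset.univ.filter (fun e : V × V => (e6Res M Aᶜ).Adj e.1 e.2 ∧ T' e.1 ≠ T' e.2)) ∪
      (if T' x ≠ T' y then {(x, y), (y, x)} else ∅) := by
    ext ⟨u, v⟩
    simp only [Finset.mem_filter, Finset.mem_univ, true_and, Finset.mem_union]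
    constructor
    · rintro ⟨huv, hne⟩
      by_cases hu : u ∈ A <;> by_cases hv : v ∈ A
      · exact Or.inl (Or.inl ⟨⟨huv, hu, hv⟩, hne⟩)
      · obtain ⟨e1, e2⟩ := hA u hu v hv huv
        right
        rw [e1, e2] at hne
        rw [if_pos hne, e1, e2]
        simp
      · obtain ⟨e1, e2⟩ := hB u (Finset.mem_compl.mpr hu) v
          (fun h => (Finset.mem_compl.mp h) hv) huv
        right
        rw [e1, e2] at hne
        rw [if_pos hne.symm, e1, e2]
        simp
      · exact Or.inl (Or.inr ⟨⟨huv, Finset.mem_compl.mpr hu, Finset.mem_compl.mpr hv⟩, hne⟩)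
    · rintro ((⟨h1, h2⟩ | ⟨h1, h2⟩) | h1)
      · exact ⟨h1.1, h2⟩
      · exact ⟨h1.1, h2⟩
      · by_cases hne : T' x ≠ T' y
        · rw [if_pos hne] at h1
          simp only [Finset.mem_insert, Finset.mem_singleton, Prod.mk.injEq] at h1
          rcases h1 with ⟨e1, e2⟩ | ⟨e1, e2⟩
          · rw [e1, e2]; exact ⟨hxy, hne⟩
          · rw [e1, e2]; exact ⟨hxy.symm, hne.symm⟩
        · rw [if_neg hne] at h1
          simp at h1
  rw [h, Finset.card_union_of_disjoint, Finset.card_union_of_disjoint]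
  · congr 1
    by_cases hne : T' x ≠ T' y
    · rw [if_pos hne, if_pos hne, Finset.card_pair]
      intro h
      rw [Prod.mk.injEq] at h
      exact hne (by rw [h.1])
    · rw [if_neg hne, if_neg hne, Finset.card_empty]
  · rw [Finset.disjoint_left]
    intro e h1 h2
    simp only [Finset.mem_filter, Finset.mem_univ, true_and] at h1 h2
    exact (Finset.mem_compl.mp h2.1.2.1) h1.1.2.1
  · rw [Finset.disjoint_left]
    intro e h1 h2
    by_cases hne : T' x ≠ T' y
    · rw [if_pos hne] at h2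
      simp only [Finset.mem_insert, Finset.mem_singleton] at h2
      simp only [Finset.mem_filter, Finset.mem_univ, true_and, Finset.mem_union] at h1
      rcases h2 with rfl | rfl
      · rcases h1 with h1 | h1
        · exact hy h1.1.2.2
        · exact (Finset.mem_compl.mp h1.1.2.1) hx
      · rcases h1 with h1 | h1
        · exact hy h1.1.2.1
        · exact (Finset.mem_compl.mp h1.1.2.2) hx
    · rw [if_neg hne] at h2
      simp at h2

/-- Module E6 (even bridge `x y`, with sides `A ∋ x` and its complement `∋ y`). -/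
theorem bridge_step.{u} {V : Type u} [Fintype V] (M : SimpleGraph V) (hM : M.Connected)
    (β : V → ℕ) (a z c : ℝ) (hac : a ≠ c) (Φ : ℝ → ZMod 2)
    (h1 : ∀ t, Φ (t + (c - a)) = Φ t) (h2 : ∀ t, Φ (t + (z - a)) = Φ t + 1)
    (IH : ∀ (W : Type u) [Fintype W] (N : SimpleGraph W) (β' : W → ℕ),
      Fintype.card W < Fintype.card V → N.Connected → Even (Fintype.card W) →
      (2 < Fintype.card W ∨ ∃ v, 0 < β' v) → Good N β' a z c)
    (A : Finset V) (x y : V) (hx : x ∈ A) (hy : y ∉ A) (hxy : M.Adj x y)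
    (hA : ∀ u ∈ A, ∀ v, v ∉ A → M.Adj u v → u = x ∧ v = y)
    (hAe : Even A.card) (hVe : Even (Fintype.card V)) :
    Good M β a z c := by
  classical
  obtain ⟨T1, hT1⟩ := e6_exists_maxcut (e6Res M A)
  obtain ⟨T2, hT2⟩ := e6_exists_maxcut (e6Res M Aᶜ)
  have hyc : y ∈ Aᶜ := Finset.mem_compl.mpr hy
  have hxc : x ∉ Aᶜ := fun h => (Finset.mem_compl.mp h) hx
  have hB : ∀ u ∈ Aᶜ, ∀ v, v ∉ Aᶜ → M.Adj u v → u = y ∧ v = x := by
    intro u hu v hv huv
    have hv' : v ∈ A := by
      by_contra h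
      exact hv (Finset.mem_compl.mpr h)
    exact (hA v hv' u (Finset.mem_compl.mp hu) huv.symm).symm
  have hAce : Even Aᶜ.card := by
    rw [Finset.card_compl]
    exact (Nat.even_sub (Finset.card_le_univ A)).mpr (iff_of_true hVe hAe)
  by_cases hs2 : ∑ v ∈ Aᶜ, (Φ (a * (dg M v + β v)) + T2 v) = 0
  · exact e6_side M hM β a z c hac Φ h1 h2 IH A x y hx hy hxy hA hAe hVe T2 hT2 hs2
  by_cases hs1 : ∑ v ∈ A, (Φ (a * (dg M v + β v)) + T1 v) = 0
  · refine e6_side M hM β a z c hac Φ h1 h2 IH Aᶜ y x hyc hxc hxy.symm hB hAce hVe T1 ?_ ?_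
    · rw [compl_compl]; exact hT1
    · rw [compl_compl]; exact hs1
  -- both sums are 1
  obtain ⟨ε, hε⟩ : ∃ ε : ZMod 2, T2 y + ε ≠ T1 x := by
    refine ⟨T1 x + 1 + T2 y, ?_⟩
    have : ∀ s t : ZMod 2, s + (t + 1 + s) ≠ t := by decide
    exact this _ _
  set T : V → ZMod 2 := fun v => if v ∈ A then T1 v else T2 v + ε with hT
  have hcount : ∀ T' : V → ZMod 2, cutCount M T' = cutCount (e6Res M A) T' +
      cutCount (e6Res M Aᶜ) T' + (if T' x ≠ T' y then 2 else 0) := by
    intro T'
    exact e6_count M A x y hx hy hxy hA hB T'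
  have hmax : IsMaxCut M T := by
    intro T'
    rw [hcount T', hcount T]
    have e1 : cutCount (e6Res M A) T = cutCount (e6Res M A) T1 := by
      unfold cutCount
      congr 1
      apply Finset.filter_congr
      intro e _
      constructor
      · rintro ⟨he, hne⟩
        refine ⟨he, ?_⟩
        rw [hT] at hne
        simpa only [if_pos he.2.1, if_pos he.2.2] using hne
      · rintro ⟨he, hne⟩
        refine ⟨he, ?_⟩
        rw [hT]
        simpa only [if_pos he.2.1, if_pos he.2.2] using hne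
    have e2 : cutCount (e6Res M Aᶜ) T = cutCount (e6Res M Aᶜ) T2 := by
      unfold cutCount
      congr 1
      apply Finset.filter_congr
      intro e _
      constructor
      · rintro ⟨he, hne⟩
        refine ⟨he, ?_⟩
        rw [hT] at hne
        simp only [if_neg (Finset.mem_compl.mp he.2.1), if_neg (Finset.mem_compl.mp he.2.2)] at hne
        exact fun h => hne (by rw [h])
      · rintro ⟨he, hne⟩
        refine ⟨he, ?_⟩
        rw [hT]
        simp only [if_neg (Finset.mem_compl.mp he.2.1), if_neg (Finset.mem_compl.mp he.2.2)]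
        exact fun h => hne (add_right_cancel h)
    have e3 : T x ≠ T y := by
      rw [hT]
      simp only [if_pos hx, if_neg hy]
      exact fun h => hε h.symm
    rw [e1, e2, if_pos e3]
    have h3 := hT1 T'
    have h4 := hT2 T'
    split_ifs <;> omega
  have htot : ∑ v, (Φ (a * (dg M v + β v)) + T v) = 0 := by
    rw [← Finset.sum_add_sum_compl A]
    have e1 : ∑ v ∈ A, (Φ (a * (dg M v + β v)) + T v) =
        ∑ v ∈ A, (Φ (a * (dg M v + β v)) + T1 v) := by
      apply Finset.sum_congr rfl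
      intro v hv
      rw [hT]
      simp only [if_pos hv]
    have e2 : ∑ v ∈ Aᶜ, (Φ (a * (dg M v + β v)) + T v) =
        ∑ v ∈ Aᶜ, ((Φ (a * (dg M v + β v)) + T2 v) + ε) := by
      apply Finset.sum_congr rfl
      intro v hv
      rw [hT]
      simp only [if_neg (Finset.mem_compl.mp hv)]
      ring
    have hcardc : ((Aᶜ.card : ℕ) : ZMod 2) = 0 := (ZMod.natCast_eq_zero_iff_even).mpr hAce
    rw [e1, e2, Finset.sum_add_distrib (s := Aᶜ) (f := fun v => Φ (a * (dg M v + β v)) + T2 v),
      Finset.sum_const, nsmul_eq_mul, hcardc, zero_mul, add_zero]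
    have : ∀ s t : ZMod 2, s ≠ 0 → t ≠ 0 → s + t = 0 := by decide
    exact this _ _ hs1 hs2
  obtain ⟨w, hws, hwl, _, _, hp⟩ := feasible M T hmax a z c hac Φ h1 h2 (fun v => a * β v) (by
    intro u
    have hfil : Finset.univ.filter (fun v => M.Reachable u v) = Finset.univ := by
      apply Finset.filter_true_of_mem
      intro v _
      exact hM.preconnected u v
    rw [hfil, ← htot]
    apply Finset.sum_congr rfl
    intro v _
    unfold dg
    congr 2
    ring)
  refine ⟨w, fun _ => 0, hws, hwl, fun v => Nat.zero_le _, ?_⟩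
  simpa only [Nat.cast_zero, mul_zero, add_zero] using hp

end PoolPW
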